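import Mathlib
import Pool.Agent.K3h34.PM.Pl

/-!
# The period conjecture relative to an arbitrary motive: all archimedean absolute values of integers of
number fields

Let `M` be an arbitrary Nori motive over the field `ℚ̄` of the algebraic numbers. For nonzero
algebraic numbers `α_1, ..., α_s` let `M'` be the sum of `M` and of the Kummer motives (1-motives)
`[ℤ → 𝔾_m]`, `1 ↦ α_i`; the periods of `M'` are those of `M`, `2 π i`, the numbers `log α_i` and
the algebraic numbers. If no product of powers of the `α_i` (with exponents not all zero) comes from
`M`, then the unipotent part of the motivic Galois group becomes larger by the vector group of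
dimension `s`, and the period conjecture for `M'` says that in addition to the conjecture for `M` the
numbers `log α_1, ..., log α_s` are algebraically independent over the field of the periods of `M`.

Here the `α_i` are ALL archimedean absolute values `|a_j|_v` of the integers `a_1, ..., a_k` of given
number fields `K_1, ..., K_k` (`v` runs through the `r_1 + r_2` infinite places of `K_j`): for almost
all `k`-tuples of integers of these fields, ordered by the largest absolute value of a conjugate, the
numbers `log |a_j|_v` satisfy no nonzero polynomial relation of degree at most `D` in each of them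
whose coefficients belong to a given finite dimensional space `W` over `ℚ̄`, for example to the space
spanned by the products of at most `δ` periods of `M`. The bound for the number of exceptions depends
on `W` only through its dimension.

For example let `K = ℚ(√2)` and let `p_1, ..., p_l` be any periods: for almost all pairs `(a, b)` of
integers the numbers `log |a + b √2|`, `log |a - b √2|` satisfy no relation of degree at most `D`
whose coefficients are polynomials of degree at most `D` in `p_1, ..., p_l` with algebraic
coefficients.

The known theorems for this problem (`BoundedDegreeOneMotives`) contain one logarithm for every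
algebraic integer; the logarithms of the conjugates of the same number are not independent of each
other in any obvious way: their sum is the logarithm of the norm.

The theorem for one field is `Pool.Agent.K3h28.NS.sch_one` (helper28: multiplicative cubes of
integers of number fields in dense sets, the theorem of Baker, the hyperplane case of the linear
subgroup theorem). The choice between the numbers and their exponentials which it contains is trivial
here; the tuples for several fields with different numbers of infinite places are new.
-/

set_option autoImplicit false

open NumberField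

namespace Pool.Agent.Results.MP_ae0f86_nt.InfinitePlaces

/-- The tuples `(a_1, ..., a_k)` of integers `a_i` of the fields `K_i` such that all conjugates
`σ (a_i)` have absolute value at most `X`. -/
def Region {k : ℕ} (K : Fin k → Type) [∀ i, Field (K i)] (X : ℝ) : Set (∀ i, 𝓞 (K i)) :=
  {a | ∀ i, ∀ σ : K i →+* ℂ, ‖σ (a i : K i)‖ ≤ X}

/-- Some nonzero polynomial of degree at most `D` in each variable, whose coefficients belong to
`W`, vanishes at the numbers `log |a_j|_v`, for all `j` and all infinite places `v` of `K_j`. -/
def Related {k : ℕ} (K : Fin k → Type) [∀ j, Field (K j)] [∀ j, NumberField (K j)] (D : ℕ)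
    (W : Submodule (algebraicClosure ℚ ℂ) ℂ) (a : ∀ j, 𝓞 (K j)) : Prop :=
  ∃ P : MvPolynomial (Σ j, InfinitePlace (K j)) ℂ, P ≠ 0 ∧ (∀ v, P.degreeOf v ≤ D) ∧
    (∀ s, P.coeff s ∈ W) ∧
    MvPolynomial.eval (fun p : Σ j, InfinitePlace (K j) =>
      (Real.log (p.2 (a p.1 : K p.1)) : ℂ)) P = 0

/-- **Main result.** -/
theorem result (k D d : ℕ) (K : Fin k → Type) [∀ j, Field (K j)] [∀ j, NumberField (K j)]
    (ε : ℝ) (hε : 0 < ε) :
    ∃ X₀ : ℝ, ∀ X ≥ X₀, (Region K X).Finite ∧
      ∀ W : Submodule (algebraicClosure ℚ ℂ) ℂ, Module.Finite (algebraicClosure ℚ ℂ) W →
        Module.finrank (algebraicClosure ℚ ℂ) W ≤ d →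
        ({a | a ∈ Region K X ∧ (∀ j, a j ≠ 0) ∧ Related K D W a}.ncard : ℝ) ≤
          ε * (Region K X).ncard := by
  obtain ⟨X₀, hX₀⟩ := Pool.Agent.K3h34.PM.pl_main k K D d ε hε
  refine ⟨X₀, fun X hX => ⟨(hX₀ X hX).1, fun W hWf hWd => ?_⟩⟩
  refine le_trans ?_ ((hX₀ X hX).2 W hWf hWd)
  apply Nat.cast_le.2
  apply Set.ncard_le_ncard _ ((hX₀ X hX).1.subset (fun x hx => hx.1))
  rintro a ⟨h1, h2, P, hP0, hPD, hPW, hP⟩
  exact ⟨h1, h2, fun hPI => hP0 (hPI P hPD hPW hP)⟩

end Pool.Agent.Results.MP_ae0f86_nt.InfinitePlaces
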