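import Mathlib
import Pool.Agent.K3h28.AF.Sch

/-!
# The period conjecture relative to an arbitrary motive: logarithms of arithmetic functions

Let `M` be an arbitrary Nori motive over the field `ℚ̄` of the algebraic numbers. For positive
algebraic numbers `a_1, ..., a_s` let `M'` be the sum of `M` and of the Kummer motives (1-motives)
`[ℤ → 𝔾_m]`, `1 ↦ a_i`; the periods of `M'` are those of `M`, `2 π i`, the logarithms `log a_i` and the
algebraic numbers. If no product of powers of the `a_i` (with exponents not all zero) comes from `M`,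
then the unipotent part of the motivic Galois group becomes larger by the vector group of dimension
`s`, and the period conjecture for `M'` says that in addition to the conjecture for `M` the numbers
`log a_1, ..., log a_s` are algebraically independent over the field of the periods of `M`.

Here this is proved in bounded degree for the following numbers `a_i`, for an arbitrary `M`. Let
`G_1, ..., G_m` be polynomials with integer coefficients which are multiplicatively independent modulo
constants, and let `f_1, ..., f_m` be multiplicative functions with `f_c (p) = G_c (p)` for all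
sufficiently large prime numbers `p`. For almost all `k`-tuples `(n_1, ..., n_k)` of positive integers
the `k m` numbers `log |f_c (n_j)|` satisfy no nonzero polynomial relation of degree at most `D` in each
of them whose coefficients belong to a given finite dimensional space `W` over `ℚ̄`, for example to the
space spanned by the products of at most `δ` periods of `M`. The bound for the number of exceptions
depends on `W` only through its dimension. For instance, for almost all `n` the numbers `log n`,
`log φ(n)`, `log σ(n)`, `log J_3(n)` (polynomials `X`, `X - 1`, `X + 1`, `X ^ 3 - 1`) satisfy no such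
relation over the periods of `M`.

In the starting library the arguments of the logarithms are linear functions of almost all tuples,
or algebraic functions near a point (`BoundedDegreeOneMotives`, `OneMotivesAndTowers`), or belong to
subgroups which depend on `M` (`UniversalSubgroups`).

The theorem on vectors of logarithms is `Pool.Agent.K3h28.AF` (helper28); the choice between the
numbers and their exponentials which it contains is trivial here, since the exponentials of the
logarithms are rational.
-/

set_option autoImplicit false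

open Polynomial

namespace Pool.Agent.Results.MP_ae0f86_nt.LogarithmsOfArithmeticFunctions

/-- The polynomials `G_1, ..., G_m` are multiplicatively independent modulo nonzero constants. -/
def MultIndep {m : ℕ} (G : Fin m → ℤ[X]) : Prop :=
  ∀ (u v : Fin m → ℕ) (A B : ℤ), A ≠ 0 → B ≠ 0 →
    C A * ∏ c, G c ^ u c = C B * ∏ c, G c ^ v c → u = v

/-- Some nonzero polynomial of degree at most `D` in each variable, whose coefficients belong to
`W`, vanishes at the logarithms of the numbers `|f_c (n_j)|`. -/
def Related {m k : ℕ} (D : ℕ) (W : Submodule (algebraicClosure ℚ ℂ) ℂ)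
    (f : Fin m → ArithmeticFunction ℝ) (n : Fin k → ℕ) : Prop :=
  ∃ P : MvPolynomial (Fin k × Fin m) ℂ, P ≠ 0 ∧ (∀ v, P.degreeOf v ≤ D) ∧
    (∀ s, P.coeff s ∈ W) ∧
    MvPolynomial.eval (fun v : Fin k × Fin m => (Real.log (f v.2 (n v.1)) : ℂ)) P = 0

open Pool.Agent.H301R2.SSE (QB mem_QB)
open Pool.Agent.Y918.SC (vl)

/-- The choice between logarithms and exponentials is trivial if the exponentials are algebraic. -/
theorem no_choice {k m D : ℕ} (W : Submodule QB ℂ) (z : Fin k → Fin m → ℂ)
    (hz : ∀ j c, IsAlgebraic ℚ (Complex.exp (z j c)))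
    (T : Fin k → Fin m → Fin m ⊕ Fin m) (hT : ∀ j, Function.Injective (T j))
    (h : ∀ P : MvPolynomial (Fin k × Fin m) ℂ, (∀ v, P.degreeOf v ≤ D) → (∀ s, P.coeff s ∈ W) →
      MvPolynomial.eval (fun v : Fin k × Fin m => vl (z v.1) (T v.1 v.2)) P = 0 → P = 0)
    (P : MvPolynomial (Fin k × Fin m) ℂ) (hdeg : ∀ v, P.degreeOf v ≤ D) (hW : ∀ s, P.coeff s ∈ W)
    (h0 : MvPolynomial.eval (fun v : Fin k × Fin m => z v.1 v.2) P = 0) : P = 0 := by
  classical
  by_contra hP
  obtain ⟨s, hs⟩ := MvPolynomial.ne_zero_iff.1 hP
  set w : ℂ := P.coeff s with hw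
  have hwW : w ∈ W := hW s
  -- the degree bound is positive
  have hD : 1 ≤ D := by
    by_contra hD
    have hD0 : ∀ v, P.degreeOf v = 0 := fun v => by have := hdeg v; omega
    have hC : ∀ t, P.coeff t ≠ 0 → t = 0 := by
      intro t ht
      ext v
      have h1 := MvPolynomial.degreeOf_le_iff.1 (hD0 v).le t (MvPolynomial.mem_support_iff.2 ht)
      simpa using h1
    have hPC : P = MvPolynomial.C (P.coeff 0) := by
      ext t
      rw [MvPolynomial.coeff_C]
      split_ifs with h1
      · rw [← h1]
      · by_contra h2
        exact h1 (hC t h2).symm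
    rw [hPC, MvPolynomial.eval_C] at h0
    apply hP
    rw [hPC, h0, MvPolynomial.C_0]
  -- all the chosen numbers are logarithms
  have hinl : ∀ j i, ∃ c, T j i = Sum.inl c := by
    intro j i
    rcases hTji : T j i with c | c
    · exact ⟨c, rfl⟩
    · exfalso
      set a : ℂ := Complex.exp (z j c) with ha
      have haQ : a ∈ QB := mem_QB.2 (hz j c)
      have hne : (MvPolynomial.C w * MvPolynomial.X (j, i) - MvPolynomial.C (a * w) :
          MvPolynomial (Fin k × Fin m) ℂ) ≠ 0 := by
        intro h1
        have h2 := congrArg (MvPolynomial.coeff (Finsupp.single (j, i) 1)) h1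
        have h5 : (0 : Fin k × Fin m →₀ ℕ) ≠ Finsupp.single (j, i) 1 := by
          intro h3
          have h4 := DFunLike.congr_fun h3 (j, i)
          simp at h4
        rw [MvPolynomial.coeff_sub, MvPolynomial.coeff_C_mul, MvPolynomial.coeff_X,
          MvPolynomial.coeff_C, if_pos rfl, if_neg h5, MvPolynomial.coeff_zero] at h2
        apply hs
        simpa using h2
      apply hne
      apply h
      · intro v
        refine (MvPolynomial.degreeOf_sub_le _ _ _).trans ?_
        rw [MvPolynomial.degreeOf_C]
        refine (max_le ((MvPolynomial.degreeOf_C_mul_le _ _ _).trans ?_) (Nat.zero_le _)).trans hD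
        rw [MvPolynomial.degreeOf_X]
        split_ifs <;> omega
      · intro t
        rw [MvPolynomial.coeff_sub, MvPolynomial.coeff_C_mul, MvPolynomial.coeff_X,
          MvPolynomial.coeff_C]
        refine W.sub_mem ?_ ?_
        · split_ifs
          · simpa using hwW
          · simp
        · split_ifs
          · exact W.smul_mem ⟨a, haQ⟩ hwW
          · exact W.zero_mem
      · rw [map_sub, map_mul, MvPolynomial.eval_C, MvPolynomial.eval_X, MvPolynomial.eval_C]
        simp only [hTji]
        show w * Complex.exp (z j c) - a * w = 0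
        rw [← ha]
        ring
  choose σ hσ using hinl
  have hσi : ∀ j, Function.Injective (σ j) := by
    intro j i i' h1
    apply hT j
    rw [hσ, hσ, h1]
  have hσb : ∀ j, Function.Bijective (σ j) := fun j => Finite.injective_iff_bijective.1 (hσi j)
  let τ : Fin k → (Fin m ≃ Fin m) := fun j => (Equiv.ofBijective (σ j) (hσb j)).symm
  have hτ : ∀ j c, σ j (τ j c) = c := fun j c => (Equiv.ofBijective (σ j) (hσb j)).apply_symm_apply c
  let e : Fin k × Fin m → Fin k × Fin m := fun v => (v.1, τ v.1 v.2)
  have he : Function.Injective e := by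
    rintro ⟨j, c⟩ ⟨j', c'⟩ h1
    simp only [e, Prod.mk.injEq] at h1
    obtain ⟨rfl, h2⟩ := h1
    rw [(τ j).injective h2]
  have hfin : MvPolynomial.rename e P = 0 := by
    apply h
    · intro v
      by_cases hv : v ∈ Set.range e
      · obtain ⟨u, rfl⟩ := hv
        rw [MvPolynomial.degreeOf_rename_of_injective he]
        exact hdeg u
      · have he' : Function.Surjective e := Finite.injective_iff_surjective.1 he
        exact absurd (he' v) hv
    · intro t
      by_cases ht : (MvPolynomial.rename e P).coeff t = 0
      · rw [ht]; exact W.zero_mem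
      · obtain ⟨u, rfl, -⟩ := MvPolynomial.coeff_rename_ne_zero _ _ _ ht
        rw [MvPolynomial.coeff_rename_mapDomain _ he]
        exact hW u
    · rw [MvPolynomial.eval_rename]
      rw [← h0]
      congr 2
      funext v
      show vl (z v.1) (T v.1 (τ v.1 v.2)) = z v.1 v.2
      rw [hσ, hτ]
      rfl
  exact hP ((MvPolynomial.rename_injective e he) (by rw [hfin, map_zero]))

/-- **Main result.** (`Real.log y` is the logarithm of `|y|`.) -/
theorem result (m k D d : ℕ) (G : Fin m → ℤ[X]) (hG : MultIndep G)
    (f : Fin m → ArithmeticFunction ℝ) (hf : ∀ c, (f c).IsMultiplicative)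
    (hfa : ∀ c n, IsAlgebraic ℚ (f c n)) (p₀ : ℕ)
    (hfp : ∀ c, ∀ p : ℕ, p.Prime → p₀ ≤ p → f c p = ((G c).eval (p : ℤ) : ℤ))
    (ε : ℝ) (hε : 0 < ε) :
    ∃ x₀ : ℕ, ∀ x ≥ x₀, ∀ W : Submodule (algebraicClosure ℚ ℂ) ℂ,
      Module.Finite (algebraicClosure ℚ ℂ) W →
      Module.finrank (algebraicClosure ℚ ℂ) W ≤ d →
      ({n : Fin k → ℕ | (∀ j, 1 ≤ n j ∧ n j ≤ x) ∧ (∀ j c, f c (n j) ≠ 0) ∧
        Related D W f n}.ncard : ℝ) ≤ ε * (x : ℝ) ^ k := by
  classical
  obtain ⟨x₀, hx₀⟩ := Pool.Agent.K3h28.AF.sch_tup G hG f hf p₀ hfp m D k d ε hε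
  refine ⟨x₀, fun x hx W hWf hWd => ?_⟩
  have hβ : LinearIndependent ℚ (fun i c : Fin m => if i = c then (1 : ℂ) else 0) := by
    rw [Fintype.linearIndependent_iff]
    intro g hg i
    have h1 := congrFun hg i
    simpa [Finset.sum_apply, Pi.smul_apply, smul_ite, Finset.sum_ite_eq'] using h1
  have h1 := hx₀ x hx (fun _ _ => 0) (fun _ i c => if i = c then 1 else 0)
    (fun _ i c => by
      split_ifs
      · exact isAlgebraic_one
      · exact isAlgebraic_zero) (fun _ => hβ) W hWf hWd
    ((Fintype.piFinset fun _ : Fin k => Finset.Ioc 0 x).filter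
      (fun n => (∀ j c, f c (n j) ≠ 0) ∧ Related D W f n)) (Finset.filter_subset _ _) (by
    intro n hn
    rw [Finset.mem_filter] at hn
    obtain ⟨-, hn0, P, hP0, hPD, hPW, hP⟩ := hn
    refine ⟨hn0, ?_⟩
    rintro ⟨T, hT, hind⟩
    set z : Fin k → Fin m → ℂ := fun j => Pool.Agent.K3h28.AF.zz f (fun _ => 0)
      (fun i c => if i = c then 1 else 0) (n j) with hz
    have hzv : ∀ j c, z j c = (Real.log (f c (n j)) : ℂ) := by
      intro j c
      simp [hz, Pool.Agent.K3h28.AF.zz]
    refine hP0 (no_choice W z ?_ T hT
      (fun Q => Pool.Agent.Y918.SC.poly_of_good z T hind Q) P hPD hPW ?_)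
    · intro j c
      rw [hzv, ← Complex.ofReal_exp, Real.exp_log_eq_abs (hn0 j c)]
      have h2 : IsAlgebraic ℚ (|f c (n j)| : ℝ) := by
        rcases abs_choice (f c (n j)) with h3 | h3
        · rw [h3]; exact hfa c _
        · rw [h3]; exact (hfa c _).neg
      exact h2.algebraMap
    · rw [← hP]
      congr 2
      funext v
      exact hzv v.1 v.2)
  have h2 : {n : Fin k → ℕ | (∀ j, 1 ≤ n j ∧ n j ≤ x) ∧ (∀ j c, f c (n j) ≠ 0) ∧
        Related D W f n} =
      (((Fintype.piFinset fun _ : Fin k => Finset.Ioc 0 x).filter
        (fun n => (∀ j c, f c (n j) ≠ 0) ∧ Related D W f n) : Finset (Fin k → ℕ)) :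
          Set (Fin k → ℕ)) := by
    ext n
    simp [Fintype.mem_piFinset, Nat.succ_le_iff]
  rw [h2, Set.ncard_coe_finset]
  exact h1

end Pool.Agent.Results.MP_ae0f86_nt.LogarithmsOfArithmeticFunctions
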