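import Mathlib
import Pool.Agent.K3h1.LA.Gp

/-!
# An arbitrary motive and the logarithms of all algebraic numbers near every large integer, at most `t + 1` exceptions

Let `V` be a finite-dimensional `ℚ`-subspace of `ℂ`, for instance the span of the products of at most `δ` entries of a
period matrix of a Nori motive `M` over `ℚ̄`. Let `u_1, ..., u_t` be complex numbers such that the elements of `V` are algebraic over
`ℚ(u_1, ..., u_t)`; so `t` can be the transcendence degree of the field generated by the periods of `M`, which is at most
`dim G(M)` (and equal to `dim G(M)` by the conjecture of Grothendieck). The theorem: let `r`, `D`, `d`, `m` be natural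
numbers. There is a constant `E` such that for ALL natural numbers `h` and ALL integers `N ≥ (h + 2) ^ E` there is a set `G`
of at most `t + 1` numbers with the following property. Let `ζ_1, ..., ζ_r` be distinct algebraic numbers which are not in
`G`, of degree at most `D` and height at most `h` (the coefficients of the minimal polynomial over `ℤ` are at most `h` in
absolute value). Then the principal logarithms of the numbers `N - ζ_1, ..., N - ζ_r` satisfy no relation `P = 0` with
`P ≠ 0` of degree at most `d` and coefficients in the `K`-span of `V`, for any number field `K` of degree at most `m`. If
`2 π i` is algebraic over `ℚ(u_1, ..., u_t)` (`M` replaced by `M ⊕ ℚ(1)`), then this holds for all logarithms of these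
numbers, of any branch.

The logarithms are periods of the Kummer motives `[ℤ → 𝔾_m]`, `1 ↦ N - ζ_s`. According to Grothendieck's conjecture the
dimension of the motivic Galois group grows by `r` if we add these motives to `M ⊕ ℚ(1)` and if the numbers `N - ζ_s` are
multiplicatively independent of each other and of the Kummer part of `M`; and then there is no relation of any degree.

For `V = ℚ` there is at most ONE exceptional number near `N` for the principal logarithms. The number of the exceptions is
bounded in terms of the transcendence degree only (not the dimension of `V`, `r`, `D`, `d`, `m` or `h`), and they do not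
depend on the relation. The known result of this kind (the starting file `MP_c9768e_nt.AlgebraicWindows`) is about the
integers `N + j`, or `ξ + j` for a fixed algebraic integer `ξ`. Here we have at once all the algebraic numbers near
`N`: for instance all the numbers `N - √a`, `N + √a`, `N + i b`, `N + b √a`, ..., and relations between them.

The proof. If this fails for all `E`, then we obtain in an ultraproduct (sequences of complex numbers modulo those which are
`O(H ^ (- C))` for all `C`; here `H` tends to infinity as quickly as we like) `t + 2` relations of algebraic dependence
between the logarithms; each of them makes the logarithm of one number `ε_i` algebraic over the constants and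
the others, and `ε_i` does not occur in the later relations. The algebraic closure of the constants has transcendence
degree at most `t` over the nonstandard integers, also if we add the elements of the (nonstandard) number fields. On the
other hand the logarithms of the `n` conjugates of all the numbers which occur are, up to `log N₀`, combinations with
algebraic coefficients, with an invertible matrix, of the values at `1 / N'` of `n` G-functions, which have a
measure of algebraic independence (`R351.GF.val_quant`, in the starting files), so that at most one dimension is lost.
-/

set_option autoImplicit false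

namespace Pool.Agent.Results.MP_ae0f86_nt.NumbersNearIntegers

open Polynomial

/-- `ζ` is a root of an irreducible polynomial in `ℤ[x]` of degree at most `D`, the coefficients of which are at most `h` in
absolute value: `ζ` is an algebraic number of degree at most `D` and height at most `h`. -/
def Bounded (D h : ℕ) (ζ : ℂ) : Prop :=
  ∃ f : ℤ[X], Irreducible f ∧ f.natDegree ≤ D ∧ (∀ m, |f.coeff m| ≤ h) ∧ aeval ζ f = 0

/-- There are a number field `K ⊂ ℂ` of degree at most `m` and a nonzero polynomial of total degree at most `d` with
coefficients in the `K`-span of `V` which vanishes at `l`. -/
def Related {r : ℕ} (d m : ℕ) (V : Submodule ℚ ℂ) (l : Fin r → ℂ) : Prop :=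
  ∃ K : IntermediateField ℚ ℂ, FiniteDimensional ℚ K ∧ Module.finrank ℚ K ≤ m ∧
    ∃ P : MvPolynomial (Fin r) ℂ, P ≠ 0 ∧ P.totalDegree ≤ d ∧ (∀ s, P.coeff s ∈ Submodule.span K (V : Set ℂ)) ∧
      MvPolynomial.aeval l P = 0

/-- **Main result.** Let `V` be a finite-dimensional `ℚ`-subspace of `ℂ` whose elements are algebraic over
`ℚ(u_1, ..., u_t)`. For all `r`, `D`, `d`, `m` there is `E` such that for all `h` and `N` with `(h + 2) ^ E ≤ N` there is a
set `G` of at most `t + 1` numbers such that for all distinct algebraic numbers `ζ_1, ..., ζ_r` outside `G` of degree at
most `D` and height at most `h` the principal logarithms of the numbers `N - ζ_s` are not related over `V` (degree `d`,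
number fields of degree at most `m`), nor are any logarithms of these numbers if `2 π i` is algebraic over
`ℚ(u_1, ..., u_t)`. -/
theorem result (V : Submodule ℚ ℂ) [Module.Finite ℚ V] {t : ℕ} (u : Fin t → ℂ)
    (hV : ∀ x ∈ V, IsAlgebraic (IntermediateField.adjoin ℚ (Set.range u)) x) (r D d m : ℕ) :
    ∃ E : ℕ, ∀ h N : ℕ, (h + 2) ^ E ≤ N → ∃ G : Finset ℂ, G.card ≤ t + 1 ∧
      ∀ ζ : Fin r → ℂ, Function.Injective ζ → (∀ s, Bounded D h (ζ s) ∧ ζ s ∉ G) →
      ∀ l : Fin r → ℂ, (∀ s, Complex.exp (l s) = N - ζ s) →
      (IsAlgebraic (IntermediateField.adjoin ℚ (Set.range u)) (2 * Real.pi * Complex.I : ℂ) ∨
        ∀ s, l s = Complex.log (N - ζ s)) → ¬ Related d m V l :=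
  Pool.Agent.K3h1.LA.gpMain V u hV r D d m

end Pool.Agent.Results.MP_ae0f86_nt.NumbersNearIntegers
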