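import Mathlib
import Pool.Agent.K3h28.SP.ShiftSch
import Pool.Agent.K3h34.PM.NoChoice

/-!
# The period conjecture relative to an arbitrary motive: logarithms of shifted primes

Let `M` be an arbitrary Nori motive over the field `ℚ̄` of the algebraic numbers. For positive
integers `a_1, ..., a_k` let `M'` be the sum of `M` and of the Kummer motives (1-motives)
`[ℤ → 𝔾_m]`, `1 ↦ a_j`; the periods of `M'` are those of `M`, `2 π i`, the numbers `log a_j` and
the algebraic numbers. If no product of powers of the `a_j` (with exponents not all zero) comes from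
`M`, then the unipotent part of the motivic Galois group becomes larger by the vector group of
dimension `k`, and the period conjecture for `M'` says that in addition to the conjecture for `M` the
numbers `log a_1, ..., log a_k` are algebraically independent over the field of the periods of `M`.

We prove this in bounded degree for `a_j = p_j + h_j` with fixed nonzero integers `h_j` and almost
all `k`-tuples of prime numbers: outside of at most `C π(x) ^ k / log log x` of the `k`-tuples of primes
`p_1, ..., p_k ≤ x` the numbers `log (p_j + h_j)` satisfy no nonzero polynomial relation of degree at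
most `D` in each of them whose coefficients belong to a given finite dimensional space `W` over `ℚ̄`,
for example to the space spanned by the products of at most `δ` periods of `M`. The constant `C`
depends on `W` only through its dimension.

Known before: if the coefficients belong to the span of a finite dimensional `ℚ`-space over a number
field of bounded degree, then there are at most `O (T ^ (k - c))` exceptions among the `k`-tuples of
integers up to `T` (`BoundedDegreeOneMotives`), which applies to tuples of primes and of shifted primes
as well. For coefficients in a finite dimensional space over `ℚ̄`, where the algebraic numbers which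
occur in the relation have unbounded degree, the known bounds for the number of exceptions among the
integers up to `x` (`LogarithmsOfArithmeticFunctions`) are greater than `π(x)`, and nothing followed
for sequences as thin as the primes; for `h_j = 0`, the primes themselves, this is still open.

The theorem on tuples of shifted primes is `Pool.Agent.K3h28.SP.shift_tup` (helper28: sets of
integers without multiplicative cubes with many large prime factors, and the theorem of Bombieri and
Vinogradov); the choice between the numbers and their exponentials which it contains is trivial here,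
since the exponentials of the logarithms are integers.
-/

set_option autoImplicit false

namespace Pool.Agent.Results.MP_ae0f86_nt.ShiftedPrimes

open Pool.Agent.H301R2.SSE (QB mem_QB)
open Pool.Agent.Y918.SC (vl GoodT adm_log poly_of_good)

/-- **Main result.** (`(p j : ℤ) + h j` is the shifted prime `p_j + h_j`; `Nat.primeCounting x` is the
number of the primes up to `x`.) -/
theorem result (k D d : ℕ) (h : Fin k → ℤ) (h0 : ∀ j, h j ≠ 0) :
    ∃ (C : ℝ) (x₀ : ℕ), ∀ x ≥ x₀,
      ∀ W : Submodule (algebraicClosure ℚ ℂ) ℂ, Module.Finite (algebraicClosure ℚ ℂ) W →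
      Module.finrank (algebraicClosure ℚ ℂ) W ≤ d →
      ({p : Fin k → ℕ | (∀ j, (p j).Prime ∧ p j ≤ x ∧ 0 < (p j : ℤ) + h j) ∧
          ∃ P : MvPolynomial (Fin k) ℂ, P ≠ 0 ∧ (∀ j, P.degreeOf j ≤ D) ∧ (∀ s, P.coeff s ∈ W) ∧
            MvPolynomial.eval (fun j => (Real.log (((p j : ℤ) + h j : ℤ) : ℝ) : ℂ)) P = 0}.ncard :
              ℝ) ≤
        C * (Nat.primeCounting x : ℝ) ^ k / Real.log (Real.log x) := by
  classical
  obtain ⟨C, hC0, hC⟩ := Pool.Agent.K3h28.SP.shift_tup 1 D k d h h0
  obtain ⟨x₀, hx₀⟩ := Filter.eventually_atTop.1 hC
  refine ⟨C, x₀, fun x hx W hWf hWd => ?_⟩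
  have hβ : LinearIndependent ℚ (fun _ : Fin 1 => (1 : ℂ)) := by
    rw [Fintype.linearIndependent_iff]
    intro g hg i
    have h1 : ((g 0 : ℚ) : ℂ) = 0 := by simpa [Rat.smul_def] using hg
    have h2 : g 0 = 0 := by exact_mod_cast h1
    rw [Subsingleton.elim i 0]
    exact h2
  have h1 := hx₀ x hx (fun _ a j => (1 : ℂ) * (Real.log a : ℂ)) (fun _ => adm_log _ hβ) W hWf hWd
  rw [Pool.Agent.K3h28.SP.piN_eq] at h1
  rw [mul_div_assoc]
  refine le_trans ?_ h1
  apply Nat.cast_le.2
  rw [← Set.ncard_coe_finset]
  apply Set.ncard_le_ncard _ (Finset.finite_toSet _)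
  rintro p ⟨hp1, P, hP0, hPD, hPW, hP⟩
  rw [Finset.mem_coe, Finset.mem_filter, Fintype.mem_piFinset]
  refine ⟨fun j => ?_, fun j => (hp1 j).2.2, fun hgood => ?_⟩
  · rw [Pool.Agent.K3h28.SP.PN, Finset.mem_filter, Finset.mem_Icc]
    exact ⟨⟨(hp1 j).1.one_lt.le, (hp1 j).2.1⟩, (hp1 j).1⟩
  · obtain ⟨T, hT, hind⟩ := hgood
    have hsh : ∀ j, ((Pool.Agent.K3h28.SP.sh (h j) (p j) : ℕ) : ℝ) = (((p j : ℤ) + h j : ℤ) : ℝ) := by
      intro j
      have h3 : ((Pool.Agent.K3h28.SP.sh (h j) (p j) : ℕ) : ℤ) = (p j : ℤ) + h j :=
        Int.toNat_of_nonneg (hp1 j).2.2.le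
      exact_mod_cast h3
    have hpos : ∀ j, (0 : ℝ) < (((p j : ℤ) + h j : ℤ) : ℝ) := fun j => by
      exact_mod_cast (hp1 j).2.2
    set e : Fin k × Fin 1 ≃ Fin k := Equiv.prodUnique (Fin k) (Fin 1) with he
    refine hP0 ((MvPolynomial.rename_injective e.symm e.symm.injective) ?_)
    rw [map_zero]
    refine Pool.Agent.K3h34.PM.no_choice (D := D) W
      (fun j _ => (1 : ℂ) * (Real.log (Pool.Agent.K3h28.SP.sh (h j) (p j) : ℕ) : ℂ)) ?_ T hT
      (fun Q => poly_of_good _ T hind Q) _ ?_ ?_ ?_
    · intro j c
      rw [hsh, one_mul, ← Complex.ofReal_exp, Real.exp_log (hpos j)]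
      rw [Complex.ofReal_intCast]
      exact isAlgebraic_intCast _
    · intro v
      obtain ⟨u, rfl⟩ := e.symm.surjective v
      rw [MvPolynomial.degreeOf_rename_of_injective e.symm.injective]
      exact hPD u
    · intro t
      by_cases ht : (MvPolynomial.rename e.symm P).coeff t = 0
      · rw [ht]; exact W.zero_mem
      · obtain ⟨u, rfl, -⟩ := MvPolynomial.coeff_rename_ne_zero _ _ _ ht
        rw [MvPolynomial.coeff_rename_mapDomain _ e.symm.injective]
        exact hPW u
    · rw [MvPolynomial.eval_rename, ← hP]
      congr 2
      funext j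
      simp only [Function.comp_apply, one_mul, hsh]
      rfl

end Pool.Agent.Results.MP_ae0f86_nt.ShiftedPrimes
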